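import Pool.Agent.Q196.SL.Defs

/-! The functional calculus of contractions. -/

namespace Pool.Agent.Q196.SL

open Set Topology Filter ENNReal ComplexConjugate

universe u

/-- `x ^ n` for `n ≥ 0` and `(x*) ^ |n|` for `n < 0`. -/
def zp {R : Type*} [Monoid R] [Star R] (x : R) (n : ℤ) : R :=
  if 0 ≤ n then x ^ n.toNat else (star x) ^ (-n).toNat

/-- The trigonometric polynomial `∑ a_n z ^ n` evaluated at an element of a *-algebra:
`∑_{n ≥ 0} a_n x ^ n + ∑_{n < 0} a_n (x*) ^ |n|`. -/
noncomputable def trig {R : Type*} [Ring R] [Star R] [Module ℂ R] (q : ℤ →₀ ℂ) (x : R) : R :=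
  q.sum fun n a => a • zp x n

/-- The extension by `0` of a function on the circle to the plane. -/
noncomputable def ext (f : Circle → ℂ) (z : ℂ) : ℂ :=
  open Classical in if h : z ∈ Submonoid.unitSphere ℂ then f ⟨z, h⟩ else 0

variable {H : Type u} [NormedAddCommGroup H] [InnerProductSpace ℂ H] [CompleteSpace H]

/-- The compression `V* W V` of `W` to the subspace `H` of `K` (through the isometry `V`). -/
noncomputable def compress {K : Type u} [NormedAddCommGroup K] [InnerProductSpace ℂ K]
    [CompleteSpace K] (V : H →ₗᵢ[ℂ] K) (W : K →L[ℂ] K) : H →L[ℂ] H :=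
  (ContinuousLinearMap.adjoint V.toContinuousLinearMap).comp (W.comp V.toContinuousLinearMap)

/-- `U` is a unitary dilation of `T` on `K ⊇ H` (inclusion `V`): `T ^ n` is the compression of
`U ^ n` for all `n ≥ 0` (for `n < 0` this follows by taking adjoints). -/
def IsUnitaryDilation {K : Type u} [NormedAddCommGroup K] [InnerProductSpace ℂ K]
    [CompleteSpace K] (T : H →L[ℂ] H) (V : H →ₗᵢ[ℂ] K) (U : K →L[ℂ] K) : Prop :=
  U ∈ unitary (K →L[ℂ] K) ∧ ∀ n : ℕ, compress V (U ^ n) = T ^ n

/-- Some trigonometric polynomials `q_j` converge to `f` uniformly on the circle while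
`q_j(T)` converge to `S` in norm. -/
def IsLimitValue (f : Circle → ℂ) (T S : H →L[ℂ] H) : Prop :=
  ∃ q : ℕ → ℤ →₀ ℂ, TendstoUniformly (fun (j : ℕ) (z : Circle) => trig (q j) (z : ℂ)) f atTop ∧
    Tendsto (fun j => trig (q j) T) atTop (𝓝 S)

/-- `S = f(T)`: (1) some trigonometric polynomials `q_j` converge to `f` uniformly on the circle
and `q_j(T)` converge to `S` in norm; and (2) for every unitary dilation `U` of `T`, on a Hilbert
space `K` containing `H` through the isometry `V`, `S` is the compression of `f(U)` to `H`. -/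
structure IsValue (f : Circle → ℂ) (T S : H →L[ℂ] H) : Prop where
  approx : IsLimitValue f T S
  dilation : ∀ (K : Type u) [NormedAddCommGroup K] [InnerProductSpace ℂ K] [CompleteSpace K]
    (V : H →ₗᵢ[ℂ] K) (U : K →L[ℂ] K), IsUnitaryDilation T V U →
    compress V (cfc (ext f) U) = S

theorem ext_coe (f : Circle → ℂ) (z : Circle) : ext f (z : ℂ) = f z := by
  unfold ext
  rw [dif_pos z.2]
  rfl

theorem spectrum_subset {K : Type u} [NormedAddCommGroup K] [InnerProductSpace ℂ K]
    [CompleteSpace K] (U : K →L[ℂ] K) (hU : U ∈ unitary (K →L[ℂ] K)) :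
    spectrum ℂ U ⊆ Metric.sphere 0 1 := by
  rcases subsingleton_or_nontrivial (K →L[ℂ] K) with h | h
  · rw [spectrum.of_subsingleton]
    exact empty_subset _
  · exact spectrum.subset_circle_of_unitary hU

theorem continuousOn_ext {f : Circle → ℂ} (hf : Continuous f) :
    ContinuousOn (ext f) (Metric.sphere 0 1) := by
  rw [continuousOn_iff_continuous_domRestrict]
  have h1 : (Metric.sphere (0 : ℂ) 1).domRestrict (ext f) =
      fun z => f ⟨z.1, z.2⟩ := by
    funext z
    exact ext_coe f ⟨z.1, z.2⟩
  rw [h1]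
  exact hf.comp (Continuous.subtype_mk continuous_subtype_val _)

theorem cfc_zp {K : Type u} [NormedAddCommGroup K] [InnerProductSpace ℂ K]
    [CompleteSpace K] (U : K →L[ℂ] K) (hU : IsStarNormal U) (n : ℤ) :
    cfc (fun z : ℂ => zp z n) U = zp U n := by
  unfold zp
  by_cases h : 0 ≤ n
  · simp only [if_pos h]
    exact cfc_pow_id U n.toNat
  · simp only [if_neg h]
    rw [cfc_pow (fun z : ℂ => star z) (-n).toNat U continuous_star.continuousOn hU]
    congr 1
    exact cfc_star_id ..

theorem cfc_trig {K : Type u} [NormedAddCommGroup K] [InnerProductSpace ℂ K]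
    [CompleteSpace K] (U : K →L[ℂ] K) (hU : IsStarNormal U) (q : ℤ →₀ ℂ) :
    cfc (fun z : ℂ => trig q z) U = trig q U := by
  have hc : ∀ n : ℤ, Continuous fun z : ℂ => zp z n := by
    intro n
    unfold zp
    by_cases h : 0 ≤ n
    · simp only [if_pos h]
      fun_prop
    · simp only [if_neg h]
      exact continuous_star.pow _
  have h1 : (fun z : ℂ => trig q z) =
      ∑ n ∈ q.support, (fun (n : ℤ) (z : ℂ) => q n • zp z n) n := by
    funext z
    rw [Finset.sum_apply]
    rfl
  rw [h1, cfc_sum (fun (n : ℤ) (z : ℂ) => q n • zp z n) U q.support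
    (fun n _ => ((hc n).const_smul (q n)).continuousOn)]
  unfold trig Finsupp.sum
  refine Finset.sum_congr rfl fun n _ => ?_
  rw [cfc_smul (q n) (fun z : ℂ => zp z n) U (hc n).continuousOn, cfc_zp U hU]

theorem compress_zp {K : Type u} [NormedAddCommGroup K] [InnerProductSpace ℂ K]
    [CompleteSpace K] (T : H →L[ℂ] H) (V : H →ₗᵢ[ℂ] K) (U : K →L[ℂ] K)
    (hd : ∀ n : ℕ, (ContinuousLinearMap.adjoint V.toContinuousLinearMap).comp
      ((U ^ n).comp V.toContinuousLinearMap) = T ^ n) (n : ℤ) :
    (ContinuousLinearMap.adjoint V.toContinuousLinearMap).comp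
      ((zp U n).comp V.toContinuousLinearMap) = zp T n := by
  unfold zp
  by_cases h : 0 ≤ n
  · rw [if_pos h, if_pos h]
    exact hd _
  · rw [if_neg h, if_neg h]
    have h1 := congrArg ContinuousLinearMap.adjoint (hd (-n).toNat)
    rw [ContinuousLinearMap.adjoint_comp, ContinuousLinearMap.adjoint_comp,
      ContinuousLinearMap.adjoint_adjoint, ContinuousLinearMap.comp_assoc] at h1
    rw [← ContinuousLinearMap.star_eq_adjoint (T ^ (-n).toNat),
      ← ContinuousLinearMap.star_eq_adjoint (U ^ (-n).toNat), star_pow, star_pow] at h1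
    exact h1

theorem compress_trig {K : Type u} [NormedAddCommGroup K] [InnerProductSpace ℂ K]
    [CompleteSpace K] (T : H →L[ℂ] H) (V : H →ₗᵢ[ℂ] K) (U : K →L[ℂ] K)
    (hd : ∀ n : ℕ, (ContinuousLinearMap.adjoint V.toContinuousLinearMap).comp
      ((U ^ n).comp V.toContinuousLinearMap) = T ^ n) (q : ℤ →₀ ℂ) :
    (ContinuousLinearMap.adjoint V.toContinuousLinearMap).comp
      ((trig q U).comp V.toContinuousLinearMap) = trig q T := by
  unfold trig Finsupp.sum
  rw [ContinuousLinearMap.finsetSum_comp, ContinuousLinearMap.comp_finsetSum]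
  refine Finset.sum_congr rfl fun n _ => ?_
  rw [ContinuousLinearMap.smul_comp, ContinuousLinearMap.comp_smul, compress_zp T V U hd]

/-- The approximation clause implies the dilation clause. -/
theorem IsValue.of_approx {f : Circle → ℂ} (hf : Continuous f) {T S : H →L[ℂ] H}
    (h : ∃ q : ℕ → ℤ →₀ ℂ,
      TendstoUniformly (fun (j : ℕ) (z : Circle) => trig (q j) (z : ℂ)) f atTop ∧
      Tendsto (fun j => trig (q j) T) atTop (𝓝 S)) : IsValue f T S := by
  refine ⟨h, ?_⟩
  obtain ⟨q, hq, hT⟩ := h
  intro K _ _ _ V U hUd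
  obtain ⟨hU, hd⟩ := hUd
  unfold compress at hd ⊢
  have hn : IsStarNormal U := by
    have h1 := Unitary.mem_iff.1 hU
    exact ⟨by rw [Commute, SemiconjBy, h1.1, h1.2]⟩
  have hsp := spectrum_subset U hU
  have h1 : Tendsto (fun j => trig (q j) U) atTop (𝓝 (cfc (ext f) U)) := by
    rw [tendsto_iff_norm_sub_tendsto_zero]
    rw [Metric.tendsto_atTop]
    intro ε hε
    obtain ⟨N, hN⟩ := (Metric.tendstoUniformly_iff.1 hq (ε / 2) (half_pos hε)).exists_forall_of_atTop
    refine ⟨N, fun j hj => ?_⟩
    rw [Real.dist_eq, sub_zero, abs_of_nonneg (norm_nonneg _)]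
    have hc1 : ContinuousOn (fun z : ℂ => trig (q j) z) (spectrum ℂ U) := by
      unfold trig Finsupp.sum
      refine continuousOn_finsetSum _ fun n _ => ?_
      refine ContinuousOn.const_smul (g := fun z : ℂ => zp z n) ?_ (q j n)
      unfold zp
      by_cases h : 0 ≤ n
      · simp only [if_pos h]
        fun_prop
      · simp only [if_neg h]
        exact (continuous_star.pow _).continuousOn
    have hc2 : ContinuousOn (ext f) (spectrum ℂ U) := (continuousOn_ext hf).mono hsp
    rw [← cfc_trig U hn, ← cfc_sub _ _ U hc1 hc2]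
    refine lt_of_le_of_lt (norm_cfc_le (half_pos hε).le fun z hz => ?_) (half_lt_self hε)
    have h2 : ‖z‖ = 1 := mem_sphere_zero_iff_norm.1 (hsp hz)
    have h3 := hN j hj ⟨z, mem_sphere_zero_iff_norm.2 h2⟩
    rw [dist_comm, dist_eq_norm] at h3
    have h4 := ext_coe f ⟨z, mem_sphere_zero_iff_norm.2 h2⟩
    change ext f z = _ at h4
    rw [h4]
    exact h3.le
  have h2 : Tendsto (fun j => trig (q j) T) atTop
      (𝓝 ((ContinuousLinearMap.adjoint V.toContinuousLinearMap).comp
      ((cfc (ext f) U).comp V.toContinuousLinearMap))) := by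
    have h3 : (fun j => trig (q j) T) = fun j =>
        (ContinuousLinearMap.adjoint V.toContinuousLinearMap).comp
        ((trig (q j) U).comp V.toContinuousLinearMap) := by
      funext j
      rw [compress_trig T V U hd]
    rw [h3]
    have hcont : Continuous fun W : K →L[ℂ] K =>
        (ContinuousLinearMap.adjoint V.toContinuousLinearMap).comp
        (W.comp V.toContinuousLinearMap) := by fun_prop
    exact (hcont.tendsto _).comp h1
  exact tendsto_nhds_unique h2 hT

end Pool.Agent.Q196.SL
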