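import Mathlib

/-! Definitions: Schatten norms, the functional calculus of contractions, the disk algebra. -/

namespace Pool.Agent.Q196.SL

open Set Topology Filter ENNReal ComplexConjugate

variable {H : Type*} [NormedAddCommGroup H] [InnerProductSpace ℂ H]

/-- `‖X‖_p ^ p` as the supremum of `∑ |⟨X e_i, g_i⟩| ^ p` over all finite orthonormal
families `(e_i)`, `(g_i)` (possibly `∞`). -/
noncomputable def schattenPow (p : ℝ) (X : H →L[ℂ] H) : ℝ≥0∞ :=
  ⨆ (n : ℕ) (e : Fin n → H) (g : Fin n → H) (_ : Orthonormal ℂ e) (_ : Orthonormal ℂ g),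
    ∑ i, ENNReal.ofReal (‖inner ℂ (g i) (X (e i))‖ ^ p)

/-- The Schatten `p`-norm of a bounded operator, `∞` if it is not in the Schatten class. -/
noncomputable def schattenNorm (p : ℝ) (X : H →L[ℂ] H) : ℝ≥0∞ := schattenPow p X ^ (1 / p)

/-- The rank one projection onto the span of a unit vector. -/
noncomputable def E (e : H) : H →L[ℂ] H :=
  (ContinuousLinearMap.toSpanSingleton ℂ e).comp (innerSL ℂ e)

theorem E_apply (e x : H) : E e x = (inner ℂ e x) • e := rfl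

/-- Finite diagonal operators. -/
noncomputable def D {ι : Type*} (e : ι → H) (F : Finset ι) (c : ι → ℂ) : H →L[ℂ] H :=
  ∑ j ∈ F, c j • E (e j)

theorem D_apply {ι : Type*} (e : ι → H) (F : Finset ι) (c : ι → ℂ) (x : H) :
    D e F c x = ∑ j ∈ F, (c j * inner ℂ (e j) x) • e j := by
  unfold D
  rw [_root_.sum_apply]
  refine Finset.sum_congr rfl fun j _ => ?_
  rw [_root_.smul_apply, E_apply, smul_smul]

theorem inner_D {ι : Type*} (e : ι → H) (F : Finset ι) (c : ι → ℂ) (x y : H) :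
    inner ℂ y (D e F c x) = ∑ j ∈ F, c j * (inner ℂ (e j) x * inner ℂ y (e j)) := by
  rw [D_apply, inner_sum]
  refine Finset.sum_congr rfl fun j _ => ?_
  rw [inner_smul_right]
  ring

theorem D_apply_basis {ι : Type*} [DecidableEq ι] {e : ι → H} (he : Orthonormal ℂ e)
    (F : Finset ι) (c : ι → ℂ) (k : ι) : D e F c (e k) = if k ∈ F then c k • e k else 0 := by
  rw [D_apply]
  have h1 : ∀ j ∈ F, (c j * inner ℂ (e j) (e k)) • e j = if j = k then c k • e k else 0 := by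
    intro j _
    rw [orthonormal_iff_ite.1 he j k]
    split_ifs with h
    · rw [h, mul_one]
    · rw [mul_zero, zero_smul]
  rw [Finset.sum_congr rfl h1]
  simp

theorem D_mul {ι : Type*} {e : ι → H} (he : Orthonormal ℂ e)
    (F : Finset ι) (c d : ι → ℂ) : D e F c * D e F d = D e F (fun j => c j * d j) := by
  classical
  ext x
  rw [show (D e F c * D e F d) x = D e F c (D e F d x) from rfl, D_apply e F d x, map_sum,
    D_apply]
  refine Finset.sum_congr rfl fun j hj => ?_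
  rw [map_smul, D_apply_basis he, if_pos hj, smul_smul]
  congr 1
  ring

theorem D_add {ι : Type*} (e : ι → H) (F : Finset ι) (c d : ι → ℂ) :
    D e F c + D e F d = D e F (fun j => c j + d j) := by
  unfold D
  rw [← Finset.sum_add_distrib]
  exact Finset.sum_congr rfl fun j _ => (add_smul _ _ _).symm

theorem D_sub {ι : Type*} (e : ι → H) (F : Finset ι) (c d : ι → ℂ) :
    D e F c - D e F d = D e F (fun j => c j - d j) := by
  unfold D
  rw [← Finset.sum_sub_distrib]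
  exact Finset.sum_congr rfl fun j _ => (sub_smul _ _ _).symm

theorem D_smul {ι : Type*} (e : ι → H) (F : Finset ι) (a : ℂ) (c : ι → ℂ) :
    a • D e F c = D e F (fun j => a * c j) := by
  unfold D
  rw [Finset.smul_sum]
  exact Finset.sum_congr rfl fun j _ => smul_smul _ _ _

/-- Powers of `1 - D(c)`. -/
theorem one_sub_D_pow {ι : Type*} {e : ι → H} (he : Orthonormal ℂ e)
    (F : Finset ι) (c : ι → ℂ) (n : ℕ) :
    (1 - D e F c) ^ n = 1 - D e F (fun j => 1 - (1 - c j) ^ n) := by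
  induction n with
  | zero =>
    rw [pow_zero]
    have : D e F (fun j => 1 - (1 - c j) ^ 0) = 0 := by
      unfold D
      refine Finset.sum_eq_zero fun j _ => ?_
      simp
    rw [this, sub_zero]
  | succ n ih =>
    rw [pow_succ, ih, sub_mul, one_mul, mul_sub, mul_one, D_mul he]
    have h1 : D e F (fun j => 1 - (1 - c j) ^ (n + 1)) =
        D e F c + (D e F (fun j => 1 - (1 - c j) ^ n) -
          D e F (fun j => (1 - (1 - c j) ^ n) * c j)) := by
      rw [D_sub, D_add]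
      congr 1
      funext j
      ring
    rw [h1]
    abel

/-- Norm of a diagonal image. -/
theorem norm_sq_D {ι : Type*} {e : ι → H} (he : Orthonormal ℂ e)
    (F : Finset ι) (c : ι → ℂ) (x : H) :
    ‖D e F c x‖ ^ 2 = ∑ j ∈ F, ‖c j‖ ^ 2 * ‖inner ℂ (e j) x‖ ^ 2 := by
  have h1 : inner ℂ (D e F c x) (D e F c x) =
      ((∑ j ∈ F, ‖c j‖ ^ 2 * ‖inner ℂ (e j) x‖ ^ 2 : ℝ) : ℂ) := by
    rw [D_apply, he.inner_sum, Complex.ofReal_sum]
    refine Finset.sum_congr rfl fun j _ => ?_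
    rw [← Complex.normSq_eq_conj_mul_self, Complex.normSq_eq_norm_sq, norm_mul, mul_pow]
  have h2 := inner_self_eq_norm_sq_to_K (𝕜 := ℂ) (D e F c x)
  rw [h1] at h2
  have h3 : ((∑ j ∈ F, ‖c j‖ ^ 2 * ‖inner ℂ (e j) x‖ ^ 2 : ℝ) : ℂ) =
      ((‖D e F c x‖ ^ 2 : ℝ) : ℂ) := by
    rw [h2]
    push_cast
    rfl
  exact (Complex.ofReal_injective h3).symm

/-- Norm estimate. -/
theorem norm_D_le {ι : Type*} {e : ι → H} (he : Orthonormal ℂ e)
    (F : Finset ι) (c : ι → ℂ) (M : ℝ) (hM : 0 ≤ M) (hc : ∀ j ∈ F, ‖c j‖ ≤ M) :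
    ‖D e F c‖ ≤ M := by
  refine ContinuousLinearMap.opNorm_le_bound _ hM fun x => ?_
  have h1 : ‖D e F c x‖ ^ 2 ≤ (M * ‖x‖) ^ 2 := by
    rw [norm_sq_D he, mul_pow]
    calc ∑ j ∈ F, ‖c j‖ ^ 2 * ‖inner ℂ (e j) x‖ ^ 2
        ≤ ∑ j ∈ F, M ^ 2 * ‖inner ℂ (e j) x‖ ^ 2 := by
          refine Finset.sum_le_sum fun j hj => ?_
          have := hc j hj
          gcongr
      _ = M ^ 2 * ∑ j ∈ F, ‖inner ℂ (e j) x‖ ^ 2 := by rw [Finset.mul_sum]
      _ ≤ M ^ 2 * ‖x‖ ^ 2 := by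
          have := he.sum_inner_products_le x (s := F)
          gcongr
  exact le_of_sq_le_sq h1 (by positivity)

/-- `1 - D(δ)` is a contraction. -/
theorem norm_one_sub_D_le {ι : Type*} {e : ι → H} (he : Orthonormal ℂ e)
    (F : Finset ι) (δ : ι → ℝ) (h0 : ∀ j, 0 ≤ δ j) (h1 : ∀ j, δ j ≤ 1) :
    ‖1 - D e F (fun j => (δ j : ℂ))‖ ≤ 1 := by
  refine ContinuousLinearMap.opNorm_le_bound _ zero_le_one fun x => ?_
  have e1 : (1 - D e F (fun j => (δ j : ℂ))) x = x - D e F (fun j => (δ j : ℂ)) x := rfl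
  have e2 : inner ℂ x (D e F (fun j => (δ j : ℂ)) x) =
      ((∑ j ∈ F, δ j * ‖inner ℂ (e j) x‖ ^ 2 : ℝ) : ℂ) := by
    rw [inner_D, Complex.ofReal_sum]
    refine Finset.sum_congr rfl fun j _ => ?_
    rw [← inner_conj_symm x (e j), Complex.mul_conj, Complex.normSq_eq_norm_sq]
    push_cast
    rfl
  have h2 : ‖x - D e F (fun j => (δ j : ℂ)) x‖ ^ 2 ≤ ‖x‖ ^ 2 := by
    rw [@norm_sub_sq ℂ, norm_sq_D he, e2]
    have e3 : RCLike.re ((∑ j ∈ F, δ j * ‖inner ℂ (e j) x‖ ^ 2 : ℝ) : ℂ) =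
        ∑ j ∈ F, δ j * ‖inner ℂ (e j) x‖ ^ 2 := rfl
    rw [e3]
    have h3 : ∑ j ∈ F, ‖(δ j : ℂ)‖ ^ 2 * ‖inner ℂ (e j) x‖ ^ 2 ≤
        ∑ j ∈ F, δ j * ‖inner ℂ (e j) x‖ ^ 2 := by
      refine Finset.sum_le_sum fun j _ => ?_
      refine mul_le_mul_of_nonneg_right ?_ (sq_nonneg _)
      rw [Complex.norm_real, Real.norm_eq_abs, sq_abs]
      nlinarith [h0 j, h1 j]
    have h4 : 0 ≤ ∑ j ∈ F, δ j * ‖inner ℂ (e j) x‖ ^ 2 :=
      Finset.sum_nonneg fun j _ => mul_nonneg (h0 j) (sq_nonneg _)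
    linarith
  rw [e1, one_mul]
  exact le_of_sq_le_sq h2 (norm_nonneg _)

/-- Jensen for subprobability weights. -/
theorem jensen {ι : Type*} (s : Finset ι) {p : ℝ} (hp : 1 ≤ p) (w f : ι → ℝ)
    (hw : ∀ i, 0 ≤ w i) (hf : ∀ i, 0 ≤ f i) (hs : ∑ i ∈ s, w i ≤ 1) :
    (∑ i ∈ s, w i * f i) ^ p ≤ ∑ i ∈ s, w i * f i ^ p := by
  have h1 := Real.inner_le_weight_mul_Lp_of_nonneg s hp w f hw hf
  have hp0 : 0 < p := by linarith
  have h2 : 0 ≤ ∑ i ∈ s, w i * f i ^ p :=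
    Finset.sum_nonneg fun i _ => mul_nonneg (hw i) (Real.rpow_nonneg (hf i) _)
  have h3 : (∑ i ∈ s, w i) ^ (1 - p⁻¹) ≤ 1 :=
    Real.rpow_le_one (Finset.sum_nonneg fun i _ => hw i) hs
      (sub_nonneg.2 (inv_le_one_of_one_le₀ hp))
  have h4 : ∑ i ∈ s, w i * f i ≤ (∑ i ∈ s, w i * f i ^ p) ^ p⁻¹ := by
    refine h1.trans ?_
    exact mul_le_of_le_one_left (Real.rpow_nonneg h2 _) h3
  calc (∑ i ∈ s, w i * f i) ^ p ≤ ((∑ i ∈ s, w i * f i ^ p) ^ p⁻¹) ^ p :=
        Real.rpow_le_rpow (Finset.sum_nonneg fun i _ => mul_nonneg (hw i) (hf i)) h4 hp0.le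
    _ = ∑ i ∈ s, w i * f i ^ p := by
        rw [← Real.rpow_mul h2, inv_mul_cancel₀ hp0.ne', Real.rpow_one]

/-- The key estimate. -/
theorem sum_inner_D_le {ι : Type*} {e : ι → H} (he : Orthonormal ℂ e)
    (F : Finset ι) (c : ι → ℂ) {p : ℝ} (hp : 1 ≤ p) {n : ℕ} {e' g : Fin n → H}
    (he' : Orthonormal ℂ e') (hg : Orthonormal ℂ g) :
    ∑ i, ‖inner ℂ (g i) (D e F c (e' i))‖ ^ p ≤ ∑ j ∈ F, ‖c j‖ ^ p := by
  have hp0 : 0 < p := by linarith
  let w : Fin n → ι → ℝ := fun i j => ‖inner ℂ (e j) (e' i)‖ * ‖inner ℂ (g i) (e j)‖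
  have hw : ∀ i j, 0 ≤ w i j := fun i j => mul_nonneg (norm_nonneg _) (norm_nonneg _)
  have hab : ∀ a b : ℝ, a * b ≤ (a ^ 2 + b ^ 2) / 2 := fun a b => by nlinarith [sq_nonneg (a - b)]
  have hw1 : ∀ i, ∑ j ∈ F, w i j ≤ 1 := by
    intro i
    have h1 := he.sum_inner_products_le (e' i) (s := F)
    have h2 := he.sum_inner_products_le (g i) (s := F)
    rw [he'.1 i] at h1
    rw [hg.1 i] at h2
    have h3 : ∑ j ∈ F, w i j ≤
        ∑ j ∈ F, (‖inner ℂ (e j) (e' i)‖ ^ 2 + ‖inner ℂ (e j) (g i)‖ ^ 2) / 2 := by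
      refine Finset.sum_le_sum fun j _ => ?_
      rw [norm_inner_symm (e j) (g i)]
      exact hab _ _
    rw [← Finset.sum_div, Finset.sum_add_distrib] at h3
    linarith
  have hw2 : ∀ j ∈ F, ∑ i, w i j ≤ 1 := by
    intro j _
    have h1 := he'.sum_inner_products_le (e j) (s := Finset.univ)
    have h2 := hg.sum_inner_products_le (e j) (s := Finset.univ)
    rw [he.1 j] at h1 h2
    have h3 : ∑ i, w i j ≤
        ∑ i, (‖inner ℂ (e' i) (e j)‖ ^ 2 + ‖inner ℂ (g i) (e j)‖ ^ 2) / 2 := by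
      refine Finset.sum_le_sum fun i _ => ?_
      rw [norm_inner_symm (e' i) (e j)]
      exact hab _ _
    rw [← Finset.sum_div, Finset.sum_add_distrib] at h3
    linarith
  calc ∑ i, ‖inner ℂ (g i) (D e F c (e' i))‖ ^ p
      ≤ ∑ i, ∑ j ∈ F, w i j * ‖c j‖ ^ p := by
        refine Finset.sum_le_sum fun i _ => ?_
        have h1 : ‖inner ℂ (g i) (D e F c (e' i))‖ ≤ ∑ j ∈ F, w i j * ‖c j‖ := by
          rw [inner_D]
          refine (norm_sum_le _ _).trans (Finset.sum_le_sum fun j _ => ?_)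
          rw [norm_mul, norm_mul]
          exact (mul_comm _ _).le
        refine (Real.rpow_le_rpow (norm_nonneg _) h1 hp0.le).trans ?_
        exact jensen F hp (w i) (fun j => ‖c j‖) (hw i) (fun j => norm_nonneg _) (hw1 i)
    _ = ∑ j ∈ F, (∑ i, w i j) * ‖c j‖ ^ p := by
        rw [Finset.sum_comm]
        exact Finset.sum_congr rfl fun j _ => (Finset.sum_mul _ _ _).symm
    _ ≤ ∑ j ∈ F, ‖c j‖ ^ p := by
        refine Finset.sum_le_sum fun j hj => ?_
        exact mul_le_of_le_one_left (Real.rpow_nonneg (norm_nonneg _) _) (hw2 j hj)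

/-- The Schatten norm of a finite diagonal operator. -/
theorem schattenPow_D {ι : Type*} {e : ι → H} (he : Orthonormal ℂ e)
    (F : Finset ι) (c : ι → ℂ) {p : ℝ} (hp : 1 ≤ p) :
    schattenPow p (D e F c) = ENNReal.ofReal (∑ j ∈ F, ‖c j‖ ^ p) := by
  classical
  refine le_antisymm ?_ ?_
  · refine iSup_le fun n => iSup_le fun e' => iSup_le fun g => iSup_le fun he' =>
      iSup_le fun hg => ?_
    rw [← ENNReal.ofReal_sum_of_nonneg fun i _ => Real.rpow_nonneg (norm_nonneg _) _]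
    exact ENNReal.ofReal_le_ofReal (sum_inner_D_le he F c hp he' hg)
  · let σ : Fin F.card ≃ F := F.equivFin.symm
    let e' : Fin F.card → H := fun i => e (σ i)
    have he' : Orthonormal ℂ e' :=
      he.comp (fun i => (σ i : ι)) (Subtype.val_injective.comp σ.injective)
    refine le_trans ?_ (le_iSup_of_le F.card <| le_iSup_of_le e' <| le_iSup_of_le e' <|
      le_iSup_of_le he' <| le_iSup_of_le he' le_rfl)
    rw [← ENNReal.ofReal_sum_of_nonneg fun i _ => Real.rpow_nonneg (norm_nonneg _) _]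
    refine ENNReal.ofReal_le_ofReal (le_of_eq ?_)
    have h1 : ∀ i, ‖inner ℂ (e' i) (D e F c (e' i))‖ ^ p = ‖c (σ i)‖ ^ p := by
      intro i
      have h2 : D e F c (e' i) = c (σ i) • e' i := by
        rw [D_apply_basis he, if_pos (σ i).2]
      rw [h2, inner_smul_right, inner_self_eq_norm_sq_to_K, he'.1 i]
      simp
    rw [Finset.sum_congr rfl fun i _ => h1 i, ← Finset.sum_coe_sort F]
    exact (Equiv.sum_comp σ fun j : F => ‖c j‖ ^ p).symm

end Pool.Agent.Q196.SL
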