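import Pool.Agent.Q196.SL.Main

/-! The final construction. -/

namespace Pool.Agent.Q196.SL

open Set Topology Filter ENNReal ComplexConjugate Real

universe u

theorem exists_seq {p : ℝ} (hp : 1 ≤ p) : ∃ (ε : ℕ → ℝ) (m : ℕ → ℕ),
    (∀ k, 0 ≤ ε k) ∧ (∀ k, ε k ≤ 1) ∧ (∀ k, (m k : ℝ) * ε k ^ p ≤ 2 * (1 / 2) ^ k) ∧
    ∀ k, 1 ≤ (m k : ℝ) * v (ε k) ^ p := by
  have hp0 : 0 < p := by linarith
  have h : ∀ k : ℕ, ∃ (ε : ℝ) (m : ℕ), 0 ≤ ε ∧ ε ≤ 1 ∧ (m : ℝ) * ε ^ p ≤ 2 * (1 / 2) ^ k ∧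
      1 ≤ (m : ℝ) * v ε ^ p := by
    intro k
    obtain ⟨δ₀, h0, h1, h2⟩ := v_large (2 ^ k)
    set ε : ℝ := min δ₀ ((1 / 2) ^ k) with hε
    have hε0 : 0 < ε := lt_min h0 (by positivity)
    have hεδ : ε ≤ δ₀ := min_le_left _ _
    have hε1 : ε ≤ 1 := hεδ.trans h1
    have hεk : ε ^ p ≤ (1 / 2) ^ k := by
      calc ε ^ p ≤ ε ^ (1 : ℝ) := Real.rpow_le_rpow_of_exponent_ge hε0 hε1 hp
        _ = ε := Real.rpow_one ε
        _ ≤ (1 / 2) ^ k := min_le_right _ _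
    have hεp : 0 < ε ^ p := Real.rpow_pos_of_pos hε0 _
    have hv := h2 ε hε0 hεδ
    let m : ℕ := ⌈(1 / 2) ^ k / ε ^ p⌉₊
    have hm1 : (1 / 2) ^ k / ε ^ p ≤ (m : ℝ) := Nat.le_ceil _
    have hm2 : (m : ℝ) ≤ (1 / 2) ^ k / ε ^ p + 1 := (Nat.ceil_lt_add_one (by positivity)).le
    refine ⟨ε, m, hε0.le, hε1, ?_, ?_⟩
    · calc (m : ℝ) * ε ^ p ≤ ((1 / 2) ^ k / ε ^ p + 1) * ε ^ p :=
            mul_le_mul_of_nonneg_right hm2 hεp.le
        _ = (1 / 2) ^ k + ε ^ p := by field_simp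
        _ ≤ 2 * (1 / 2) ^ k := by linarith
    · have h3 : (2 ^ k * ε) ^ p ≤ v ε ^ p := Real.rpow_le_rpow (by positivity) hv hp0.le
      have h4 : (2 ^ k * ε) ^ p = ((2 : ℝ) ^ k) ^ p * ε ^ p :=
        Real.mul_rpow (by positivity) hε0.le
      have h5 : (2 : ℝ) ^ k ≤ ((2 : ℝ) ^ k) ^ p := by
        calc (2 : ℝ) ^ k = ((2 : ℝ) ^ k) ^ (1 : ℝ) := (Real.rpow_one _).symm
          _ ≤ ((2 : ℝ) ^ k) ^ p :=
            Real.rpow_le_rpow_of_exponent_le (one_le_pow₀ (by norm_num)) hp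
      calc (1 : ℝ) = (1 / 2) ^ k / ε ^ p * (2 ^ k * ε ^ p) := by
            have : ((1 : ℝ) / 2) ^ k * 2 ^ k = 1 := by
              rw [← mul_pow]; norm_num
            field_simp
            linarith [this]
        _ ≤ (m : ℝ) * v ε ^ p := by
            refine mul_le_mul hm1 ?_ (by positivity) (by positivity)
            refine le_trans ?_ h3
            rw [h4]
            exact mul_le_mul_of_nonneg_right h5 hεp.le
  choose ε m h1 h2 h3 h4 using h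
  exact ⟨ε, m, h1, h2, h3, h4⟩

theorem exists_orthonormal (H : Type u) [NormedAddCommGroup H] [InnerProductSpace ℂ H]
    [CompleteSpace H] (hH : ¬ FiniteDimensional ℂ H) :
    ∃ e : ℕ → H, Orthonormal ℂ e := by
  obtain ⟨w, b, hb⟩ := exists_hilbertBasis ℂ H
  have hw : w.Infinite := by
    intro hfin
    apply hH
    have := hfin.fintype
    have h1 := b.dense_span
    have h2 : FiniteDimensional ℂ (Submodule.span ℂ (range b)) :=
      FiniteDimensional.span_of_finite ℂ (Set.finite_range b)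
    have h3 : (Submodule.span ℂ (range b)) = ⊤ := by
      rw [← h1]
      exact (Submodule.closed_of_finiteDimensional _).submodule_topologicalClosure_eq.symm
    rw [h3] at h2
    exact (Submodule.topEquiv (R := ℂ) (M := H)).finiteDimensional
  have := hw.to_subtype
  let g := Infinite.natEmbedding w
  exact ⟨fun n => b (g n), b.orthonormal.comp g g.injective⟩

/-- The blow-up asked for in Q1, for the contractions `T₁`, `T₀ n` with the values
`S₁ = f(T₁)`, `S₀ n = f(T₀ n)`: `sup ‖T₁ - T₀ n‖_p < ∞`, `‖T₀ n‖ ↑ 1`, and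
`‖f(T₁) - f(T₀ n)‖_p ↑ ∞` (all terms being finite). -/
structure BlowUp {H : Type u} [NormedAddCommGroup H] [InnerProductSpace ℂ H] (p : ℝ)
    (T₁ S₁ : H →L[ℂ] H) (T₀ S₀ : ℕ → H →L[ℂ] H) : Prop where
  contraction : ‖T₁‖ ≤ 1 ∧ ∀ n, ‖T₀ n‖ ≤ 1
  bounded : (⨆ n, schattenNorm p (T₁ - T₀ n)) < ∞
  norm_mono : Monotone fun n => ‖T₀ n‖
  norm_tendsto : Tendsto (fun n => ‖T₀ n‖) atTop (𝓝 1)
  finite : ∀ n, schattenNorm p (S₁ - S₀ n) < ∞
  mono : Monotone fun n => schattenNorm p (S₁ - S₀ n)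
  tendsto : Tendsto (fun n => schattenNorm p (S₁ - S₀ n)) atTop (𝓝 ∞)

/-- The construction. -/
theorem construction (H : Type u) [NormedAddCommGroup H] [InnerProductSpace ℂ H]
    [CompleteSpace H] (hH : ¬ FiniteDimensional ℂ H) {p : ℝ} (hp : 1 ≤ p) :
    ∃ (T₀ : ℕ → H →L[ℂ] H) (S₁ : H →L[ℂ] H) (S₀ : ℕ → H →L[ℂ] H),
      (∀ n, ‖T₀ n‖ = 1) ∧
      IsValue (fun z : Circle => fz z) 1 S₁ ∧
      (∀ n, IsValue (fun z : Circle => fz z) (T₀ n) (S₀ n)) ∧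
      (⨆ n, schattenNorm p (1 - T₀ n)) < ∞ ∧
      (∀ n, schattenNorm p (S₁ - S₀ n) < ∞) ∧
      Monotone (fun n => schattenNorm p (S₁ - S₀ n)) ∧
      Tendsto (fun n => schattenNorm p (S₁ - S₀ n)) atTop (𝓝 ∞) := by
  have hp0 : 0 < p := by linarith
  obtain ⟨ε, m, hε0, hε1, hm1, hm2⟩ := exists_seq hp
  obtain ⟨e₀, he₀⟩ := exists_orthonormal H hH
  let e : (Σ _ : ℕ, ℕ) → H := fun j => e₀ (Encodable.encode j)
  have he : Orthonormal ℂ e := he₀.comp _ Encodable.encode_injective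
  let F : ℕ → Finset (Σ _ : ℕ, ℕ) := fun n => (Finset.range n).sigma fun k => Finset.range (m k)
  let δ : (Σ _ : ℕ, ℕ) → ℝ := fun j => ε j.1
  have hδ0 : ∀ j, 0 ≤ δ j := fun j => hε0 j.1
  have hδ1 : ∀ j, δ j ≤ 1 := fun j => hε1 j.1
  have hsum : ∀ (g : ℕ → ℝ) (n : ℕ), ∑ j ∈ F n, g j.1 = ∑ k ∈ Finset.range n, (m k : ℝ) * g k := by
    intro g n
    rw [Finset.sum_sigma]
    refine Finset.sum_congr rfl fun k _ => ?_
    change ∑ s ∈ Finset.range (m k), g k = _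
    rw [Finset.sum_const, Finset.card_range, nsmul_eq_mul]
  have hpow1 : ∀ n, schattenPow p (D e (F n) fun j => (δ j : ℂ)) =
      ENNReal.ofReal (∑ k ∈ Finset.range n, (m k : ℝ) * ε k ^ p) := by
    intro n
    rw [schattenPow_D he _ _ hp, ← hsum (fun k => ε k ^ p) n]
    congr 1
    refine Finset.sum_congr rfl fun j _ => ?_
    rw [Complex.norm_real, Real.norm_eq_abs, abs_of_nonneg (hδ0 j)]
  have hpow2 : ∀ n, schattenPow p (D e (F n) fun j => (v (δ j) : ℂ)) =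
      ENNReal.ofReal (∑ k ∈ Finset.range n, (m k : ℝ) * v (ε k) ^ p) := by
    intro n
    rw [schattenPow_D he _ _ hp, ← hsum (fun k => v (ε k) ^ p) n]
    congr 1
    refine Finset.sum_congr rfl fun j _ => ?_
    rw [Complex.norm_real, Real.norm_eq_abs, abs_of_nonneg (v_nonneg (hδ0 j) (hδ1 j))]
  let T₀ : ℕ → H →L[ℂ] H := fun n => 1 - D e (F n) fun j => (δ j : ℂ)
  let S₁ : H →L[ℂ] H := ((π ^ 2 / 6 : ℝ) : ℂ) • 1
  let S₀ : ℕ → H →L[ℂ] H := fun n =>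
    ((π ^ 2 / 6 : ℝ) : ℂ) • 1 - D e (F n) fun j => (v (δ j) : ℂ)
  have hT : ∀ n, 1 - T₀ n = D e (F n) fun j => (δ j : ℂ) := fun n => sub_sub_cancel _ _
  have hS : ∀ n, S₁ - S₀ n = D e (F n) fun j => (v (δ j) : ℂ) := fun n => sub_sub_cancel _ _
  refine ⟨T₀, S₁, S₀, ?_, ?_, ?_, ?_, ?_, ?_, ?_⟩
  · intro n
    refine le_antisymm (norm_one_sub_D_le he _ δ hδ0 hδ1) ?_
    have hn : (⟨n, 0⟩ : Σ _ : ℕ, ℕ) ∉ F n := by
      intro h
      exact absurd (Finset.mem_range.1 (Finset.mem_sigma.1 h).1) (lt_irrefl _)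
    have h1 : T₀ n (e ⟨n, 0⟩) = e ⟨n, 0⟩ := by
      change e ⟨n, 0⟩ - D e (F n) (fun j => (δ j : ℂ)) (e ⟨n, 0⟩) = _
      classical
      rw [D_apply_basis he, if_neg hn, sub_zero]
    have h2 := (T₀ n).le_opNorm (e ⟨n, 0⟩)
    rw [h1, he.1, mul_one] at h2
    exact h2
  · have h1 := value he ∅ δ hδ0 hδ1
    have h2 : ∀ c : (Σ _ : ℕ, ℕ) → ℂ, D e ∅ c = 0 := fun c => Finset.sum_empty
    rw [h2, h2, sub_zero, sub_zero] at h1
    exact h1
  · exact fun n => value he (F n) δ hδ0 hδ1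
  · have h1 : ∀ n, schattenNorm p (1 - T₀ n) ≤ ENNReal.ofReal 4 ^ (1 / p) := by
      intro n
      unfold schattenNorm
      rw [hT, hpow1]
      refine ENNReal.rpow_le_rpow (ENNReal.ofReal_le_ofReal ?_) (by positivity)
      calc ∑ k ∈ Finset.range n, (m k : ℝ) * ε k ^ p
          ≤ ∑ k ∈ Finset.range n, 2 * (1 / 2 : ℝ) ^ k := Finset.sum_le_sum fun k _ => hm1 k
        _ = 2 * ∑ k ∈ Finset.range n, (1 / 2 : ℝ) ^ k := by rw [Finset.mul_sum]
        _ ≤ 2 * 2 := by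
            have := sum_geometric_two_le n
            linarith
        _ = 4 := by norm_num
    refine lt_of_le_of_lt (iSup_le h1) ?_
    exact ENNReal.rpow_lt_top_of_nonneg (by positivity) ENNReal.ofReal_ne_top
  · intro n
    unfold schattenNorm
    rw [hS, hpow2]
    exact ENNReal.rpow_lt_top_of_nonneg (by positivity) ENNReal.ofReal_ne_top
  · intro n n' hnn
    change schattenNorm p (S₁ - S₀ n) ≤ schattenNorm p (S₁ - S₀ n')
    unfold schattenNorm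
    rw [hS, hS, hpow2, hpow2]
    refine ENNReal.rpow_le_rpow (ENNReal.ofReal_le_ofReal ?_) (by positivity)
    refine Finset.sum_le_sum_of_subset_of_nonneg (Finset.range_mono hnn) fun k _ _ => ?_
    exact mul_nonneg (Nat.cast_nonneg _) (Real.rpow_nonneg (v_nonneg (hε0 k) (hε1 k)) _)
  · have h1 : ∀ n : ℕ, (n : ℝ≥0∞) ^ (1 / p) ≤ schattenNorm p (S₁ - S₀ n) := by
      intro n
      unfold schattenNorm
      rw [hS, hpow2]
      refine ENNReal.rpow_le_rpow ?_ (by positivity)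
      rw [← ENNReal.ofReal_natCast]
      refine ENNReal.ofReal_le_ofReal ?_
      calc (n : ℝ) = ∑ k ∈ Finset.range n, (1 : ℝ) := by simp
        _ ≤ ∑ k ∈ Finset.range n, (m k : ℝ) * v (ε k) ^ p := Finset.sum_le_sum fun k _ => hm2 k
    refine tendsto_of_tendsto_of_tendsto_of_le_of_le ?_ tendsto_const_nhds h1 fun n => le_top
    have h2 : Tendsto (fun x : ℝ≥0∞ => x ^ (1 / p)) (𝓝 ∞) (𝓝 (∞ ^ (1 / p))) :=
      (ENNReal.continuous_rpow_const).tendsto _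
    rw [ENNReal.top_rpow_of_pos (by positivity)] at h2
    exact h2.comp ENNReal.tendsto_nat_nhds_top

end Pool.Agent.Q196.SL
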