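import Pool.Agent.Q196.SL.Calc

/-! The function `f(z) = ∑ Re(z^n) / n^2`. -/

namespace Pool.Agent.Q196.SL

open Set Topology Filter ENNReal ComplexConjugate Real

/-- The terms. -/
noncomputable def tm (n : ℕ) (z : ℂ) : ℂ :=
  (1 / (2 * ((n : ℂ) + 1) ^ 2)) * (z ^ (n + 1) + star z ^ (n + 1))

/-- `f(z) = ∑_{n ≥ 1} (z ^ n + z̄ ^ n) / (2 n ^ 2)`. -/
noncomputable def fz (z : ℂ) : ℂ := ∑' n : ℕ, tm n z

theorem b2 (x : ℝ) : (Polynomial.map (algebraMap ℚ ℝ) (Polynomial.bernoulli 2)).eval x =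
    x ^ 2 - x + 1 / 6 := by
  simp only [Polynomial.bernoulli, Finset.sum_range_succ, Finset.sum_range_zero,
    Polynomial.map_add, Polynomial.map_monomial, Polynomial.eval_add, Polynomial.eval_monomial,
    bernoulli_zero, bernoulli_one, bernoulli_two, zero_add]
  norm_num
  ring

/-- Closed form. -/
theorem hasSum_cos (x : ℝ) (hx : x ∈ Icc (0 : ℝ) 1) :
    HasSum (fun n : ℕ => 1 / ((n : ℝ) + 1) ^ 2 * Real.cos (2 * π * (n + 1) * x))
      (π ^ 2 * (x ^ 2 - x + 1 / 6)) := by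
  have h := hasSum_one_div_nat_pow_mul_cos (k := 1) one_ne_zero hx
  have h1 : ((-1 : ℝ) ^ (1 + 1) * (2 * π) ^ (2 * 1) / 2 / (2 * 1).factorial *
        (Polynomial.map (algebraMap ℚ ℝ) (Polynomial.bernoulli (2 * 1))).eval x) =
      π ^ 2 * (x ^ 2 - x + 1 / 6) := by
    rw [mul_one, b2, Nat.factorial_two]
    push_cast
    ring
  rw [h1] at h
  have h3 := (hasSum_nat_add_iff' 1).2 h
  simp only [Finset.range_one, Finset.sum_singleton, Nat.cast_zero] at h3
  norm_num at h3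
  simpa [one_div] using h3

theorem tm_exp (n : ℕ) (x : ℝ) : tm n (Complex.exp (((2 * π * x : ℝ) : ℂ) * Complex.I)) =
    ((1 / ((n : ℝ) + 1) ^ 2 * Real.cos (2 * π * (n + 1) * x) : ℝ) : ℂ) := by
  unfold tm
  have h1 : star (Complex.exp (((2 * π * x : ℝ) : ℂ) * Complex.I)) =
      Complex.exp (-(((2 * π * x : ℝ) : ℂ) * Complex.I)) := by
    rw [Complex.star_def, ← Complex.exp_conj, map_mul, Complex.conj_ofReal, Complex.conj_I]
    congr 1
    ring
  rw [h1, ← Complex.exp_nat_mul, ← Complex.exp_nat_mul]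
  push_cast
  rw [Complex.cos]
  have e1 : ((n : ℂ) + 1) * (2 * (π : ℂ) * (x : ℂ) * Complex.I) =
      2 * (π : ℂ) * ((n : ℂ) + 1) * (x : ℂ) * Complex.I := by ring
  have e2 : ((n : ℂ) + 1) * -(2 * (π : ℂ) * (x : ℂ) * Complex.I) =
      -(2 * (π : ℂ) * ((n : ℂ) + 1) * (x : ℂ)) * Complex.I := by ring
  rw [e1, e2]
  field_simp

theorem fz_exp (x : ℝ) (hx : x ∈ Icc (0 : ℝ) 1) :
    fz (Complex.exp (((2 * π * x : ℝ) : ℂ) * Complex.I)) =
      ((π ^ 2 * (x ^ 2 - x + 1 / 6) : ℝ) : ℂ) := by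
  unfold fz
  simp_rw [tm_exp]
  exact (Complex.ofRealCLM.hasSum (hasSum_cos x hx)).tsum_eq

theorem exists_angle (z : Circle) : ∃ x ∈ Ico (0 : ℝ) 1,
    (z : ℂ) = Complex.exp (((2 * π * x : ℝ) : ℂ) * Complex.I) := by
  have hz : ‖(z : ℂ)‖ = 1 := Circle.norm_coe z
  have h1 : (z : ℂ) = Complex.exp (Complex.arg z * Complex.I) := by
    have := Complex.norm_mul_exp_arg_mul_I (z : ℂ)
    rw [hz] at this
    simpa using this.symm
  have hp := Real.pi_pos
  have h2 := Complex.neg_pi_lt_arg (z : ℂ)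
  have h3 := Complex.arg_le_pi (z : ℂ)
  by_cases h : 0 ≤ Complex.arg z
  · refine ⟨Complex.arg z / (2 * π), ⟨by positivity, ?_⟩, ?_⟩
    · rw [div_lt_one (by positivity)]
      linarith
    · rw [h1]
      congr 2
      rw [← h1]
      push_cast
      field_simp
  · refine ⟨Complex.arg z / (2 * π) + 1, ⟨?_, ?_⟩, ?_⟩
    · rw [← neg_le_iff_add_nonneg, le_div_iff₀ (by positivity)]
      linarith
    · have : Complex.arg z / (2 * π) < 0 := div_neg_of_neg_of_pos (not_le.1 h) (by positivity)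
      linarith
    · have e : ((2 * π * (Complex.arg z / (2 * π) + 1) : ℝ) : ℂ) * Complex.I =
          Complex.arg z * Complex.I + 2 * π * Complex.I := by
        push_cast
        field_simp
      rw [e, Complex.exp_periodic, ← h1]

theorem key_ineq (x y : ℝ) (hx : x ∈ Ico (0 : ℝ) 1) (hy : y ∈ Ico (0 : ℝ) 1) :
    |(x ^ 2 - x + 1 / 6) - (y ^ 2 - y + 1 / 6)| ≤ |Real.sin (π * (x - y))| / 2 := by
  wlog h : y ≤ x with H
  · have := H y x hy hx (not_le.1 h).le
    rw [abs_sub_comm, show π * (x - y) = -(π * (y - x)) by ring, Real.sin_neg, abs_neg]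
    exact this
  have hp := Real.pi_pos
  set d := x - y with hd
  have hd0 : 0 ≤ d := sub_nonneg.2 h
  have hd1 : d < 1 := by have := hx.2; have := hy.1; linarith
  have e1 : (x ^ 2 - x + 1 / 6) - (y ^ 2 - y + 1 / 6) = d * (x + y - 1) := by
    rw [hd]; ring
  have e2 : |x + y - 1| ≤ 1 - d := by
    rw [abs_le, hd]
    have := hx.2
    have := hy.1
    constructor <;> linarith
  have h1 : |(x ^ 2 - x + 1 / 6) - (y ^ 2 - y + 1 / 6)| ≤ d * (1 - d) := by
    rw [e1, abs_mul, abs_of_nonneg hd0]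
    exact mul_le_mul_of_nonneg_left e2 hd0
  have h2 : 2 * (d * (1 - d)) ≤ Real.sin (π * d) := by
    rcases le_total d (1 / 2) with h3 | h3
    · have h4 := Real.mul_le_sin (x := π * d) (by positivity) (by nlinarith)
      have h5 : 2 / π * (π * d) = 2 * d := by field_simp
      rw [h5] at h4
      nlinarith
    · have h4 := Real.mul_le_sin (x := π * (1 - d)) (by nlinarith) (by nlinarith)
      have h5 : 2 / π * (π * (1 - d)) = 2 * (1 - d) := by field_simp
      have h6 : Real.sin (π * (1 - d)) = Real.sin (π * d) := by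
        rw [← Real.sin_pi_sub (π * d)]
        congr 1
        ring
      rw [h5, h6] at h4
      nlinarith
  have h3 := le_abs_self (Real.sin (π * d))
  linarith

/-- The Lipschitz estimate. -/
theorem fz_lipschitz (z w : Circle) : ‖fz z - fz w‖ ≤ π ^ 2 / 4 * ‖(z : ℂ) - w‖ := by
  obtain ⟨x, hx, hxz⟩ := exists_angle z
  obtain ⟨y, hy, hyw⟩ := exists_angle w
  have h1 : ‖(z : ℂ) - w‖ = 2 * |Real.sin (π * (x - y))| := by
    have e : (z : ℂ) - w = w * (Complex.exp (Complex.I * ((2 * π * (x - y) : ℝ) : ℂ)) - 1) := by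
      rw [mul_sub, mul_one, hxz, hyw, ← Complex.exp_add]
      congr 2
      push_cast
      ring
    rw [e, norm_mul, Circle.norm_coe, one_mul, Complex.norm_exp_I_mul_ofReal_sub_one, norm_mul,
      Real.norm_eq_abs, Real.norm_eq_abs, abs_of_pos (by norm_num : (0 : ℝ) < 2)]
    congr 3
    ring
  rw [h1, hxz, hyw, fz_exp x ⟨hx.1, hx.2.le⟩, fz_exp y ⟨hy.1, hy.2.le⟩, ← Complex.ofReal_sub,
    Complex.norm_real, Real.norm_eq_abs, ← mul_sub, abs_mul, abs_of_nonneg (by positivity)]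
  have h2 := key_ineq x y hx hy
  have h3 : 0 ≤ π ^ 2 := by positivity
  nlinarith

/-- Membership in the disk algebra. -/
def InDiskAlgebra (f : Circle → ℂ) : Prop :=
  ∃ F : ℂ → ℂ, ContinuousOn F (Metric.closedBall 0 1) ∧ DifferentiableOn ℂ F (Metric.ball 0 1) ∧
    ∀ z : Circle, F z = f z

theorem fz_notMem : ¬ InDiskAlgebra fun z : Circle => fz z := by
  rintro ⟨F, hFc, hFd, hF⟩
  have h0 : (∮ z in C(0, 1), F z) = 0 := by
    refine Complex.circleIntegral_eq_zero_of_differentiable_on_off_countable zero_le_one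
      countable_empty hFc ?_
    intro z hz
    exact (hFd z hz.1).differentiableAt (Metric.isOpen_ball.mem_nhds hz.1)
  let P : ℝ → ℂ := fun θ => (θ : ℂ) ^ 2 / 4 - π * θ / 2 + π ^ 2 / 6
  have h1 : (∮ z in C(0, 1), F z) = ∫ θ in (0 : ℝ)..2 * π,
      Complex.I * Complex.exp (θ * Complex.I) * P θ := by
    unfold circleIntegral
    refine intervalIntegral.integral_congr fun θ hθ => ?_
    rw [uIcc_of_le (by positivity)] at hθ
    have hp := Real.pi_pos
    have h2 : circleMap 0 1 θ = Complex.exp (θ * Complex.I) := by simp [circleMap]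
    have h3 : ‖circleMap 0 1 θ‖ = 1 := by rw [h2]; exact Complex.norm_exp_ofReal_mul_I θ
    have h4 := hF ⟨circleMap 0 1 θ, mem_sphere_zero_iff_norm.2 h3⟩
    change F (circleMap 0 1 θ) = fz (circleMap 0 1 θ) at h4
    have h5 : Complex.exp (θ * Complex.I) =
        Complex.exp (((2 * π * (θ / (2 * π)) : ℝ) : ℂ) * Complex.I) := by
      congr 2
      congr 1
      field_simp
    simp only [deriv_circleMap, smul_eq_mul]
    rw [h4, h2, h5, fz_exp (θ / (2 * π)) ⟨div_nonneg hθ.1 (by positivity), by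
      rw [div_le_one (by positivity)]; exact hθ.2⟩, ← h5]
    have h6 : ((π ^ 2 * ((θ / (2 * π)) ^ 2 - θ / (2 * π) + 1 / 6) : ℝ) : ℂ) = P θ := by
      change _ = (θ : ℂ) ^ 2 / 4 - π * θ / 2 + π ^ 2 / 6
      have : π ^ 2 * ((θ / (2 * π)) ^ 2 - θ / (2 * π) + 1 / 6) =
          θ ^ 2 / 4 - π * θ / 2 + π ^ 2 / 6 := by
        field_simp
        ring
      rw [this]
      push_cast
      ring
    rw [h6]
    ring
  let G : ℝ → ℂ := fun θ => Complex.exp (θ * Complex.I) *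
    (P θ + Complex.I * ((θ : ℂ) / 2 - π / 2) - 1 / 2)
  have hPd : ∀ θ : ℝ, HasDerivAt P ((θ : ℂ) / 2 - π / 2) θ := by
    intro θ
    have e1 : HasDerivAt (fun θ : ℝ => (θ : ℂ)) 1 θ := Complex.ofRealCLM.hasDerivAt
    have e2 := (((e1.pow 2).div_const 4).sub ((e1.const_mul (π : ℂ)).div_const 2)).add_const
      ((π : ℂ) ^ 2 / 6)
    refine HasDerivAt.congr_deriv (f := P) e2 ?_
    push_cast
    ring
  have hGd : ∀ θ : ℝ, HasDerivAt G (Complex.I * Complex.exp (θ * Complex.I) * P θ) θ := by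
    intro θ
    have e1 : HasDerivAt (fun θ : ℝ => (θ : ℂ)) 1 θ := Complex.ofRealCLM.hasDerivAt
    have e2 := (e1.mul_const Complex.I).cexp
    have e3 : HasDerivAt (fun θ : ℝ => P θ + Complex.I * ((θ : ℂ) / 2 - π / 2) - 1 / 2)
        ((θ : ℂ) / 2 - π / 2 + Complex.I * (1 / 2)) θ := by
      refine ((((hPd θ).add (((e1.div_const 2).sub (hasDerivAt_const θ ((π : ℂ) / 2))).const_mul
        Complex.I)).sub (hasDerivAt_const θ ((1 : ℂ) / 2))).congr_deriv ?_)
      ring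
    refine HasDerivAt.congr_deriv (f := G) (e2.mul e3) ?_
    have hI : Complex.I ^ 2 = -1 := Complex.I_sq
    linear_combination (Complex.exp (θ * Complex.I) * ((θ : ℂ) / 2 - π / 2)) * hI
  have h2 : (∫ θ in (0 : ℝ)..2 * π, Complex.I * Complex.exp (θ * Complex.I) * P θ) =
      G (2 * π) - G 0 := by
    refine intervalIntegral.integral_eq_sub_of_hasDerivAt (fun θ _ => hGd θ) ?_
    refine Continuous.intervalIntegrable ?_ _ _
    have : Continuous P := by
      change Continuous fun θ : ℝ => (θ : ℂ) ^ 2 / 4 - π * θ / 2 + π ^ 2 / 6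
      fun_prop
    fun_prop
  have h3 : G (2 * π) - G 0 = Complex.I * π := by
    change Complex.exp (((2 * π : ℝ) : ℂ) * Complex.I) *
      ((((2 * π : ℝ) : ℂ) ^ 2 / 4 - π * ((2 * π : ℝ) : ℂ) / 2 + π ^ 2 / 6) +
        Complex.I * (((2 * π : ℝ) : ℂ) / 2 - π / 2) - 1 / 2) -
      Complex.exp (((0 : ℝ) : ℂ) * Complex.I) *
      ((((0 : ℝ) : ℂ) ^ 2 / 4 - π * ((0 : ℝ) : ℂ) / 2 + π ^ 2 / 6) +
        Complex.I * (((0 : ℝ) : ℂ) / 2 - π / 2) - 1 / 2) = Complex.I * π
    push_cast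
    rw [Complex.exp_two_pi_mul_I, zero_mul, Complex.exp_zero]
    ring
  rw [h1, h2, h3] at h0
  have h4 : (π : ℂ) ≠ 0 := by exact_mod_cast Real.pi_ne_zero
  exact (mul_ne_zero Complex.I_ne_zero h4) h0

end Pool.Agent.Q196.SL
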