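import Pool.Agent.Q196.SL.Fun

/-! The example. -/

namespace Pool.Agent.Q196.SL

open Set Topology Filter ENNReal ComplexConjugate Real

universe u

/-- The gain function `v(δ) = u(1) - u(1 - δ)`, `u(t) = ∑ t ^ n / n ^ 2`. -/
noncomputable def v (δ : ℝ) : ℝ := ∑' n : ℕ, (1 - (1 - δ) ^ (n + 1)) / ((n : ℝ) + 1) ^ 2

theorem summable_sq : Summable fun n : ℕ => 1 / ((n : ℝ) + 1) ^ 2 := by
  have h := (summable_nat_add_iff 1).2 (Real.summable_one_div_nat_pow.2 (one_lt_two))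
  simpa using h

theorem v_terms {δ : ℝ} (h0 : 0 ≤ δ) (h1 : δ ≤ 1) (n : ℕ) :
    0 ≤ (1 - (1 - δ) ^ (n + 1)) / ((n : ℝ) + 1) ^ 2 ∧
      (1 - (1 - δ) ^ (n + 1)) / ((n : ℝ) + 1) ^ 2 ≤ 1 / ((n : ℝ) + 1) ^ 2 := by
  have h2 : 0 ≤ (1 - δ) ^ (n + 1) := pow_nonneg (by linarith) _
  have h3 : (1 - δ) ^ (n + 1) ≤ 1 := pow_le_one₀ (by linarith) (by linarith)
  constructor
  · exact div_nonneg (by linarith) (by positivity)
  · exact div_le_div_of_nonneg_right (by linarith) (by positivity)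

theorem v_summable {δ : ℝ} (h0 : 0 ≤ δ) (h1 : δ ≤ 1) :
    Summable fun n : ℕ => (1 - (1 - δ) ^ (n + 1)) / ((n : ℝ) + 1) ^ 2 :=
  Summable.of_nonneg_of_le (fun n => (v_terms h0 h1 n).1) (fun n => (v_terms h0 h1 n).2)
    summable_sq

theorem v_nonneg {δ : ℝ} (h0 : 0 ≤ δ) (h1 : δ ≤ 1) : 0 ≤ v δ :=
  tsum_nonneg fun n => (v_terms h0 h1 n).1

/-- `v(δ) / δ → ∞`. -/
theorem v_large (M : ℝ) : ∃ δ₀ : ℝ, 0 < δ₀ ∧ δ₀ ≤ 1 ∧ ∀ δ, 0 < δ → δ ≤ δ₀ → M * δ ≤ v δ := by
  obtain ⟨N, hN⟩ := ((tendsto_atTop.1 Real.tendsto_sum_range_one_div_nat_succ_atTop)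
    (2 * M)).exists
  refine ⟨1 / ((N : ℝ) + 1), by positivity, ?_, ?_⟩
  · rw [div_le_one (by positivity)]
    have : (0 : ℝ) ≤ N := Nat.cast_nonneg N
    linarith
  · intro δ hδ hδN
    have hδ1 : δ ≤ 1 := by
      refine hδN.trans ?_
      rw [div_le_one (by positivity)]
      have : (0 : ℝ) ≤ N := Nat.cast_nonneg N
      linarith
    have h1 : ∀ n ∈ Finset.range N, δ / 2 * (1 / ((n : ℝ) + 1)) ≤
        (1 - (1 - δ) ^ (n + 1)) / ((n : ℝ) + 1) ^ 2 := by
      intro n hn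
      have hnN : ((n : ℝ) + 1) * δ ≤ 1 := by
        have h2 : (n : ℝ) + 1 ≤ (N : ℝ) + 1 := by
          have : n + 1 ≤ N := Finset.mem_range.1 hn
          have : ((n + 1 : ℕ) : ℝ) ≤ N := by exact_mod_cast this
          push_cast at this
          linarith
        rw [le_div_iff₀ (by positivity)] at hδN
        nlinarith
      have h3 : 1 + ((n + 1 : ℕ) : ℝ) * δ ≤ (1 + δ) ^ (n + 1) :=
        one_add_mul_le_pow (by linarith) _
      have h4 : (1 - δ) ^ (n + 1) * (1 + δ) ^ (n + 1) ≤ 1 := by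
        rw [← mul_pow]
        exact pow_le_one₀ (by nlinarith) (by nlinarith)
      have h5 : 0 ≤ (1 - δ) ^ (n + 1) := pow_nonneg (by linarith) _
      have h6 : (1 - δ) ^ (n + 1) * (1 + ((n : ℝ) + 1) * δ) ≤ 1 := by
        push_cast at h3
        refine le_trans ?_ h4
        exact mul_le_mul_of_nonneg_left h3 h5
      have h7 : ((n : ℝ) + 1) * δ / 2 ≤ 1 - (1 - δ) ^ (n + 1) := by
        set a := ((n : ℝ) + 1) * δ with ha
        have ha0 : 0 ≤ a := by positivity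
        nlinarith
      rw [le_div_iff₀ (by positivity)]
      calc δ / 2 * (1 / ((n : ℝ) + 1)) * ((n : ℝ) + 1) ^ 2 = ((n : ℝ) + 1) * δ / 2 := by
            field_simp
        _ ≤ _ := h7
    calc M * δ ≤ δ / 2 * ∑ n ∈ Finset.range N, 1 / ((n : ℝ) + 1) := by nlinarith
      _ = ∑ n ∈ Finset.range N, δ / 2 * (1 / ((n : ℝ) + 1)) := by rw [Finset.mul_sum]
      _ ≤ ∑ n ∈ Finset.range N, (1 - (1 - δ) ^ (n + 1)) / ((n : ℝ) + 1) ^ 2 :=
          Finset.sum_le_sum h1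
      _ ≤ v δ := (v_summable hδ.le hδ1).sum_le_tsum _ fun n _ => (v_terms hδ.le hδ1 n).1

section calculus

variable {R : Type*} [Ring R] [Star R] [Module ℂ R]

theorem trig_add (q q' : ℤ →₀ ℂ) (x : R) : trig (q + q') x = trig q x + trig q' x := by
  unfold trig
  exact Finsupp.sum_add_index' (fun n => zero_smul ℂ _) (fun n a b => add_smul a b _)

theorem trig_single (n : ℤ) (a : ℂ) (x : R) : trig (Finsupp.single n a) x = a • zp x n := by
  unfold trig
  exact Finsupp.sum_single_index (zero_smul ℂ _)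

/-- The partial sums of `f`. -/
noncomputable def qq : ℕ → ℤ →₀ ℂ
  | 0 => 0
  | N + 1 => qq N + (Finsupp.single ((N : ℤ) + 1) (1 / (2 * ((N : ℂ) + 1) ^ 2)) +
      Finsupp.single (-((N : ℤ) + 1)) (1 / (2 * ((N : ℂ) + 1) ^ 2)))

theorem trig_qq (N : ℕ) (x : R) : trig (qq N) x =
    ∑ n ∈ Finset.range N, (1 / (2 * ((n : ℂ) + 1) ^ 2)) • (x ^ (n + 1) + star x ^ (n + 1)) := by
  induction N with
  | zero => simp [qq, trig]
  | succ N ih =>
    have h1 : zp x ((N : ℤ) + 1) = x ^ (N + 1) := by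
      unfold zp
      rw [if_pos (by positivity)]
      rfl
    have h2 : zp x (-((N : ℤ) + 1)) = star x ^ (N + 1) := by
      unfold zp
      rw [if_neg (by omega), neg_neg]
      rfl
    change trig (qq N + (Finsupp.single ((N : ℤ) + 1) (1 / (2 * ((N : ℂ) + 1) ^ 2)) +
      Finsupp.single (-((N : ℤ) + 1)) (1 / (2 * ((N : ℂ) + 1) ^ 2)))) x = _
    rw [trig_add, trig_add, trig_single, trig_single, ih, Finset.sum_range_succ, h1, h2, smul_add]

end calculus

theorem qq_unif : TendstoUniformly (fun (j : ℕ) (z : Circle) => trig (qq j) (z : ℂ))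
    (fun z : Circle => fz z) atTop := by
  have h1 : ∀ (n : ℕ) (z : Circle), ‖tm n (z : ℂ)‖ ≤ 1 / ((n : ℝ) + 1) ^ 2 := by
    intro n z
    unfold tm
    have h2 : ‖(z : ℂ) ^ (n + 1) + star (z : ℂ) ^ (n + 1)‖ ≤ 2 := by
      refine (norm_add_le _ _).trans ?_
      rw [norm_pow, norm_pow, norm_star, Circle.norm_coe, one_pow]
      norm_num
    rw [norm_mul]
    have h3 : ‖(1 / (2 * ((n : ℂ) + 1) ^ 2))‖ = 1 / (2 * ((n : ℝ) + 1) ^ 2) := by
      have : (1 / (2 * ((n : ℂ) + 1) ^ 2)) = ((1 / (2 * ((n : ℝ) + 1) ^ 2) : ℝ) : ℂ) := by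
        push_cast
        rfl
      rw [this, Complex.norm_real, Real.norm_eq_abs, abs_of_nonneg (by positivity)]
    rw [h3]
    calc 1 / (2 * ((n : ℝ) + 1) ^ 2) * ‖(z : ℂ) ^ (n + 1) + star (z : ℂ) ^ (n + 1)‖
        ≤ 1 / (2 * ((n : ℝ) + 1) ^ 2) * 2 := mul_le_mul_of_nonneg_left h2 (by positivity)
      _ = 1 / ((n : ℝ) + 1) ^ 2 := by field_simp
  have h2 := tendstoUniformly_tsum_nat (f := fun n (z : Circle) => tm n (z : ℂ)) summable_sq h1
  have h3 : (fun (j : ℕ) (z : Circle) => trig (qq j) (z : ℂ)) =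
      fun (N : ℕ) (z : Circle) => ∑ n ∈ Finset.range N, tm n (z : ℂ) := by
    funext N z
    rw [trig_qq]
    rfl
  rw [h3]
  exact h2

variable {H : Type u} [NormedAddCommGroup H] [InnerProductSpace ℂ H]

theorem D_selfAdjoint [CompleteSpace H] {ι : Type*} (e : ι → H) (F : Finset ι) (δ : ι → ℝ) :
    star (1 - D e F (fun j => (δ j : ℂ))) = 1 - D e F (fun j => (δ j : ℂ)) := by
  rw [star_sub, star_one]
  congr 1
  rw [ContinuousLinearMap.star_eq_adjoint]
  refine (ContinuousLinearMap.eq_adjoint_iff _ _).2 ?_ |>.symm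
  intro x y
  rw [inner_D, ← inner_conj_symm, inner_D, map_sum]
  refine Finset.sum_congr rfl fun j _ => ?_
  rw [map_mul, map_mul, Complex.conj_ofReal, inner_conj_symm, inner_conj_symm]
  ring

theorem value [CompleteSpace H] {ι : Type*} {e : ι → H} (he : Orthonormal ℂ e) (F : Finset ι)
    (δ : ι → ℝ) (h0 : ∀ j, 0 ≤ δ j) (h1 : ∀ j, δ j ≤ 1) :
    IsValue (fun z : Circle => fz z) (1 - D e F (fun j => (δ j : ℂ)))
      (((π ^ 2 / 6 : ℝ) : ℂ) • 1 - D e F (fun j => (v (δ j) : ℂ))) := by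
  have hf : Continuous fun z : Circle => fz z := by
    refine (LipschitzWith.of_dist_le_mul (K := ⟨π ^ 2 / 4, by positivity⟩) fun z w => ?_).continuous
    rw [dist_eq_norm]
    have := fz_lipschitz z w
    rw [← dist_eq_norm (z : ℂ) w] at this
    exact this
  refine IsValue.of_approx hf ⟨qq, qq_unif, ?_⟩
  have h2 : ∀ N, trig (qq N) (1 - D e F (fun j => (δ j : ℂ))) =
      ((∑ n ∈ Finset.range N, 1 / ((n : ℝ) + 1) ^ 2 : ℝ) : ℂ) • (1 : H →L[ℂ] H) -
      D e F (fun j => ((∑ n ∈ Finset.range N,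
        (1 - (1 - δ j) ^ (n + 1)) / ((n : ℝ) + 1) ^ 2 : ℝ) : ℂ)) := by
    intro N
    rw [trig_qq, D_selfAdjoint]
    induction N with
    | zero => simp [D]
    | succ N ih =>
      rw [Finset.sum_range_succ, ih, one_sub_D_pow he]
      have e1 : (1 / (2 * ((N : ℂ) + 1) ^ 2)) •
          ((1 - D e F (fun j => 1 - (1 - (δ j : ℂ)) ^ (N + 1))) +
          (1 - D e F (fun j => 1 - (1 - (δ j : ℂ)) ^ (N + 1)))) =
          ((1 / ((N : ℝ) + 1) ^ 2 : ℝ) : ℂ) • (1 : H →L[ℂ] H) -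
          D e F (fun j => (((1 - (1 - δ j) ^ (N + 1)) / ((N : ℝ) + 1) ^ 2 : ℝ) : ℂ)) := by
        rw [← two_smul ℂ (1 - D e F (fun j => 1 - (1 - (δ j : ℂ)) ^ (N + 1))), smul_smul,
          smul_sub, D_smul]
        have e2 : (1 / (2 * ((N : ℂ) + 1) ^ 2)) * 2 = ((1 / ((N : ℝ) + 1) ^ 2 : ℝ) : ℂ) := by
          push_cast
          field_simp
        rw [e2]
        congr 2
        funext j
        push_cast
        ring
      rw [e1]
      have e3 : D e F (fun j => ((∑ n ∈ Finset.range (N + 1),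
          (1 - (1 - δ j) ^ (n + 1)) / ((n : ℝ) + 1) ^ 2 : ℝ) : ℂ)) =
          D e F (fun j => ((∑ n ∈ Finset.range N,
          (1 - (1 - δ j) ^ (n + 1)) / ((n : ℝ) + 1) ^ 2 : ℝ) : ℂ)) +
          D e F (fun j => (((1 - (1 - δ j) ^ (N + 1)) / ((N : ℝ) + 1) ^ 2 : ℝ) : ℂ)) := by
        rw [D_add]
        congr 1
        funext j
        rw [Finset.sum_range_succ, Complex.ofReal_add]
      rw [e3, Finset.sum_range_succ, Complex.ofReal_add, add_smul]
      abel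
  simp_rw [h2]
  refine Tendsto.sub ?_ ?_
  · refine Tendsto.smul_const ?_ _
    have h3 : HasSum (fun n : ℕ => 1 / ((n : ℝ) + 1) ^ 2) (π ^ 2 / 6) := by
      have h4 := hasSum_cos 0 ⟨le_rfl, zero_le_one⟩
      simpa [div_eq_mul_inv] using h4
    exact (Complex.continuous_ofReal.tendsto _).comp h3.tendsto_sum_nat
  · unfold D
    refine tendsto_finsetSum _ fun j _ => ?_
    refine Tendsto.smul_const ?_ _
    exact (Complex.continuous_ofReal.tendsto _).comp (v_summable (h0 j) (h1 j)).hasSum.tendsto_sum_nat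

end Pool.Agent.Q196.SL
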